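import Mathlib

/-! The recursion for the exponents in the power product expansion of the partition function. -/

set_option autoImplicit false

open PowerSeries Finset

namespace Q263.PP

/-- `n` is the sequence of coefficients in the power product expansion of the partition
function: `∑ p(j) x^j = ∏_{k ≥ 1} (1 + n_k x^k)`.  (The coefficient of `x^j` in the product only
depends on the factors with `k ≤ j`.) -/
def IsExpansion (n : ℕ → ℤ) : Prop :=
  ∀ N : ℕ, ∀ j ≤ N, coeff j (∏ k ∈ Icc 1 N, (1 + C (n k) * X ^ k : ℤ⟦X⟧)) =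
    (Fintype.card (Nat.Partition j) : ℤ)

/-- the partition generating function -/
noncomputable def F : ℤ⟦X⟧ := PowerSeries.mk fun j => (Fintype.card (Nat.Partition j) : ℤ)

lemma dvd_prod_sub_one {ι : Type*} (d : ℤ⟦X⟧) (s : Finset ι) (g : ι → ℤ⟦X⟧)
    (h : ∀ i ∈ s, d ∣ g i - 1) : d ∣ ∏ i ∈ s, g i - 1 := by
  classical
  induction s using Finset.induction_on with
  | empty => simp
  | insert i s hi ih =>
    rw [Finset.prod_insert hi]
    have h1 := h i (Finset.mem_insert_self _ _)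
    have h2 := ih (fun j hj => h j (Finset.mem_insert_of_mem hj))
    have e : g i * ∏ j ∈ s, g j - 1 = (g i - 1) * ∏ j ∈ s, g j + (∏ j ∈ s, g j - 1) := by ring
    rw [e]
    exact dvd_add (Dvd.dvd.mul_right h1 _) h2

lemma prod_Icc_range (N : ℕ) (f : ℕ → ℤ⟦X⟧) :
    ∏ k ∈ Icc 1 N, f k = ∏ i ∈ range N, f (i + 1) := by
  rw [Finset.range_eq_Ico, Finset.prod_Ico_add' f 0 N 1]
  congr 1

open scoped PowerSeries.WithPiTopology in
/-- Euler's product, truncated -/
lemma euler (N : ℕ) : (X : ℤ⟦X⟧) ^ (N + 1) ∣ (∏ k ∈ Icc 1 N, (1 - X ^ k : ℤ⟦X⟧)) * F - 1 := by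
  classical
  have h := Nat.Partition.hasProd_powerSeriesMk_card_restricted ℤ (fun _ => True)
  simp only [if_true] at h
  have hF : (PowerSeries.mk fun n => ((Nat.Partition.restricted n (fun _ => True)).card : ℤ)) = F := by
    rw [F]
    congr 1
    funext n
    simp [Nat.Partition.restricted]
  rw [hF] at h
  set g : ℕ → ℤ⟦X⟧ := fun i => ∑' j : ℕ, X ^ ((i + 1) * j) with hg
  have hgi : ∀ i, g i * (1 - X ^ (i + 1)) = 1 := by
    intro i
    simp only [hg]
    simp_rw [pow_mul]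
    exact WithPiTopology.tsum_pow_mul_one_sub_of_constantCoeff_eq_zero (by simp)
  -- choose a large finite set
  rw [HasProd, SummationFilter.unconditional_filter, WithPiTopology.tendsto_iff_coeff_tendsto] at h
  have hev : ∀ j, ∃ s₀ : Finset ℕ, ∀ s, s₀ ⊆ s → coeff j (∏ i ∈ s, g i) = coeff j F := by
    intro j
    have h1 := h j
    have h2 : ∀ᶠ y in nhds (coeff j F), y = coeff j F := by
      have : IsOpen ({coeff j F} : Set ℤ) := isOpen_discrete _
      exact this.mem_nhds rfl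
    obtain ⟨s₀, hs₀⟩ := Filter.eventually_atTop.mp (h1.eventually h2)
    exact ⟨s₀, fun s hs => hs₀ s hs⟩
  choose s₀ hs₀ using hev
  set s := (range (N + 1)).biUnion s₀ ∪ range N with hs
  have h1 : (X : ℤ⟦X⟧) ^ (N + 1) ∣ F - ∏ i ∈ s, g i := by
    rw [X_pow_dvd_iff]
    intro m hm
    rw [map_sub, hs₀ m s, sub_self]
    refine (Finset.subset_biUnion_of_mem s₀ (Finset.mem_range.mpr hm)).trans ?_
    exact Finset.subset_union_left
  have hsub : range N ⊆ s := Finset.subset_union_right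
  have h2 : (∏ k ∈ Icc 1 N, (1 - X ^ k : ℤ⟦X⟧)) * ∏ i ∈ s, g i = ∏ i ∈ s \ range N, g i := by
    rw [← Finset.prod_sdiff hsub, prod_Icc_range, mul_left_comm, ← Finset.prod_mul_distrib]
    have : ∀ i ∈ range N, (1 - X ^ (i + 1) : ℤ⟦X⟧) * g i = 1 := fun i _ => by
      rw [mul_comm]; exact hgi i
    rw [Finset.prod_congr rfl this]
    simp
  have h3 : (X : ℤ⟦X⟧) ^ (N + 1) ∣ ∏ i ∈ s \ range N, g i - 1 := by
    apply dvd_prod_sub_one
    intro i hi
    rw [Finset.mem_sdiff, Finset.mem_range] at hi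
    have e : g i - 1 = X ^ (i + 1) * g i := by
      have := hgi i
      linear_combination this
    rw [e]
    exact Dvd.dvd.mul_right (pow_dvd_pow _ (by omega)) _
  have e : (∏ k ∈ Icc 1 N, (1 - X ^ k : ℤ⟦X⟧)) * F - 1 =
      (∏ k ∈ Icc 1 N, (1 - X ^ k : ℤ⟦X⟧)) * (F - ∏ i ∈ s, g i) +
        ((∏ k ∈ Icc 1 N, (1 - X ^ k : ℤ⟦X⟧)) * ∏ i ∈ s, g i - 1) := by ring
  rw [e, h2]
  exact dvd_add (Dvd.dvd.mul_left h1 _) h3

/-- the logarithmic derivative `x f'/f` of `f = 1 + a x^k` -/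
noncomputable def ell (a : ℤ) (k : ℕ) : ℤ⟦X⟧ :=
  PowerSeries.mk fun m => if k ∣ m ∧ 0 < m then k * ((-1) ^ (m / k + 1) * a ^ (m / k)) else 0

/-- the derivation `x d/dx` -/
noncomputable def D (f : ℤ⟦X⟧) : ℤ⟦X⟧ := X * PowerSeries.derivative ℤ f

lemma coeff_D (f : ℤ⟦X⟧) (m : ℕ) : coeff m (D f) = m * coeff m f := by
  rw [D]
  rcases m with _ | m
  · simp
  · rw [mul_comm, coeff_succ_mul_X, coeff_derivative]
    push_cast
    ring

lemma D_mul (f g : ℤ⟦X⟧) : D (f * g) = f * D g + g * D f := by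
  rw [D, D, D, Derivation.leibniz, smul_eq_mul, smul_eq_mul]
  ring

lemma D_one_add (a : ℤ) (k : ℕ) (hk : 0 < k) :
    D (1 + C a * X ^ k) = (1 + C a * X ^ k) * ell a k := by
  ext m
  rw [coeff_D, add_mul, one_mul, map_add, map_add, coeff_C_mul, coeff_X_pow, coeff_one, mul_assoc,
    coeff_C_mul, coeff_X_pow_mul', ell, coeff_mk, coeff_mk]
  by_cases hd : k ∣ m ∧ 0 < m
  · obtain ⟨⟨q, rfl⟩, hm⟩ := hd
    have hq : 0 < q := Nat.pos_of_mul_pos_left hm |> fun h => by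
      rcases Nat.eq_zero_or_pos q with h0 | h0
      · subst h0; simp at hm
      · exact h0
    have hdiv : k * q / k = q := Nat.mul_div_cancel_left _ hk
    rw [if_neg (show ¬ (k * q = 0) by omega),
      if_pos (show k ∣ k * q ∧ 0 < k * q from ⟨dvd_mul_right _ _, hm⟩), hdiv]
    rcases Nat.eq_or_lt_of_le hq with h1 | h1
    · -- q = 1
      have h1' : q = 1 := h1.symm
      subst h1'
      rw [mul_one, if_pos rfl, if_pos le_rfl, Nat.sub_self,
        if_neg (show ¬ (k ∣ 0 ∧ 0 < 0) by simp)]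
      simp
    · have hle : k ≤ k * q := Nat.le_mul_of_pos_right k hq
      have hne : ¬ (k * q = k) := by
        intro h
        have : k * q = k * 1 := by rw [h, mul_one]
        have := Nat.eq_of_mul_eq_mul_left hk this
        omega
      have hsub : k * q - k = k * (q - 1) := by rw [Nat.mul_sub, mul_one]
      rw [if_neg hne, if_pos hle, hsub, Nat.mul_div_cancel_left _ hk,
        if_pos ⟨dvd_mul_right _ _, Nat.mul_pos hk (by omega)⟩]
      obtain ⟨r, rfl⟩ : ∃ r, q = r + 2 := ⟨q - 2, by omega⟩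
      rw [show r + 2 - 1 = r + 1 by omega]
      simp only [pow_succ]
      ring
  · rw [if_neg hd]
    have h2 : ¬ (k ∣ m - k ∧ 0 < m - k) ∨ ¬ k ≤ m := by
      by_contra hcon
      push Not at hcon
      obtain ⟨⟨h3, h4⟩, h5⟩ := hcon
      apply hd
      refine ⟨?_, by omega⟩
      have := dvd_add h3 (dvd_refl k)
      rwa [Nat.sub_add_cancel h5] at this
    have h3 : (if k ≤ m then (if k ∣ m - k ∧ 0 < m - k then
        (k : ℤ) * ((-1) ^ ((m - k) / k + 1) * a ^ ((m - k) / k)) else 0) else 0) = 0 := by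
      rcases h2 with h2 | h2
      · rw [if_neg h2]; simp
      · rw [if_neg h2]
    rw [h3]
    by_cases hm0 : m = 0
    · simp [hm0]
    · rw [if_neg hm0, if_neg (fun h => hd ⟨by rw [h], by omega⟩)]
      simp

lemma D_prod {ι : Type*} (s : Finset ι) (f l : ι → ℤ⟦X⟧) (h : ∀ i ∈ s, D (f i) = f i * l i) :
    D (∏ i ∈ s, f i) = (∏ i ∈ s, f i) * ∑ i ∈ s, l i := by
  classical
  induction s using Finset.induction_on with
  | empty => simp [D]
  | insert i s hi ih =>
    rw [Finset.prod_insert hi, Finset.sum_insert hi, D_mul,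
      ih (fun j hj => h j (Finset.mem_insert_of_mem hj)), h i (Finset.mem_insert_self _ _)]
    ring

/-- the recursion -/
theorem rec_main {n : ℕ → ℤ} (hn : IsExpansion n) (N : ℕ) (hN : 0 < N) :
    ∑ k ∈ N.divisors, (k : ℤ) * ((-1) ^ (N / k + 1) * n k ^ (N / k)) = ∑ k ∈ N.divisors, (k : ℤ) := by
  set A := ∏ k ∈ Icc 1 N, (1 + C (n k) * X ^ k : ℤ⟦X⟧) with hA
  set B := ∏ k ∈ Icc 1 N, (1 + C (-1) * X ^ k : ℤ⟦X⟧) with hB
  have hB' : B = ∏ k ∈ Icc 1 N, (1 - X ^ k : ℤ⟦X⟧) := by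
    rw [hB]
    refine Finset.prod_congr rfl fun k _ => ?_
    simp [sub_eq_add_neg]
  have hAF : (X : ℤ⟦X⟧) ^ (N + 1) ∣ A - F := by
    rw [X_pow_dvd_iff]
    intro m hm
    rw [map_sub, hA, hn N m (by omega), F, coeff_mk, sub_self]
  have hBF := euler N
  rw [← hB'] at hBF
  have hAB : (X : ℤ⟦X⟧) ^ (N + 1) ∣ A * B - 1 := by
    have e : A * B - 1 = B * (A - F) + (B * F - 1) := by ring
    rw [e]
    exact dvd_add (Dvd.dvd.mul_left hAF _) hBF
  set S := ∑ k ∈ Icc 1 N, ell (n k) k + ∑ k ∈ Icc 1 N, ell (-1) k with hS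
  have hDA : D A = A * ∑ k ∈ Icc 1 N, ell (n k) k :=
    D_prod (Icc 1 N) (fun k => (1 + C (n k) * X ^ k : ℤ⟦X⟧)) (fun k => ell (n k) k)
      (fun k hk => D_one_add (n k) k (Finset.mem_Icc.mp hk).1)
  have hDB : D B = B * ∑ k ∈ Icc 1 N, ell (-1) k :=
    D_prod (Icc 1 N) (fun k => (1 + C (-1) * X ^ k : ℤ⟦X⟧)) (fun k => ell (-1) k)
      (fun k hk => D_one_add (-1) k (Finset.mem_Icc.mp hk).1)
  have hD : D (A * B) = A * B * S := by
    rw [D_mul, hDA, hDB, hS]
    ring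
  have hD0 : (X : ℤ⟦X⟧) ^ (N + 1) ∣ D (A * B) := by
    rw [X_pow_dvd_iff] at hAB ⊢
    intro m hm
    rw [coeff_D]
    have h1 := hAB m hm
    rw [map_sub, sub_eq_zero] at h1
    rw [h1, coeff_one]
    split_ifs with h0
    · simp [h0]
    · simp
  have hS0 : (X : ℤ⟦X⟧) ^ (N + 1) ∣ S := by
    have e : S = D (A * B) - (A * B - 1) * S := by rw [hD]; ring
    rw [e]
    exact dvd_sub hD0 (Dvd.dvd.mul_right hAB _)
  rw [X_pow_dvd_iff] at hS0
  have h1 := hS0 N (by omega)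
  rw [hS, map_add, map_sum, map_sum] at h1
  have h2 : ∀ a : ℕ → ℤ, ∑ k ∈ Icc 1 N, coeff N (ell (a k) k) =
      ∑ k ∈ N.divisors, (k : ℤ) * ((-1) ^ (N / k + 1) * a k ^ (N / k)) := by
    intro a
    have : N.divisors = (Icc 1 N).filter (· ∣ N) := by
      ext k
      rw [Nat.mem_divisors, Finset.mem_filter, Finset.mem_Icc]
      constructor
      · rintro ⟨h3, h4⟩
        exact ⟨⟨Nat.pos_of_dvd_of_pos h3 hN, Nat.le_of_dvd hN h3⟩, h3⟩
      · rintro ⟨-, h3⟩
        exact ⟨h3, hN.ne'⟩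
    rw [this, Finset.sum_filter]
    refine Finset.sum_congr rfl fun k hk => ?_
    rw [ell, coeff_mk]
    by_cases hd : k ∣ N
    · rw [if_pos ⟨hd, hN⟩, if_pos hd]
    · rw [if_neg (fun h => hd h.1), if_neg hd]
  rw [h2 n, h2 (fun _ => -1)] at h1
  have h3 : ∑ k ∈ N.divisors, (k : ℤ) * ((-1) ^ (N / k + 1) * (-1) ^ (N / k)) =
      - ∑ k ∈ N.divisors, (k : ℤ) := by
    rw [← Finset.sum_neg_distrib]
    refine Finset.sum_congr rfl fun k _ => ?_
    have : ((-1 : ℤ)) ^ (N / k + 1) * (-1) ^ (N / k) = -1 := by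
      rw [pow_succ, mul_comm, ← mul_assoc, ← mul_pow]
      simp
    rw [this]; ring
  rw [h3] at h1
  linarith

end Q263.PP
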