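import Mathlib
import Pool.Agent.Q263.PP.Rec
import Pool.Agent.Q263.PP.Tab

/-! Signs in the power product expansion of the partition function: the induction. -/

set_option autoImplicit false

open Finset

namespace Q263.PP

variable {n : ℕ → ℤ}

lemma odd_one (hn : IsExpansion n) (m : ℕ) (hm : m % 2 = 1) : n m = 1 := by
  induction m using Nat.strong_induction_on with
  | _ m ih =>
    have hpos : 0 < m := by omega
    have h := rec_main hn m hpos
    have h1 : ∀ k ∈ m.divisors, (k : ℤ) * ((-1) ^ (m / k + 1) * n k ^ (m / k)) =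
        if k = m then (k : ℤ) * n m else k := by
      intro k hk
      have hdvd := Nat.dvd_of_mem_divisors hk
      have hkpos := Nat.pos_of_dvd_of_pos hdvd hpos
      obtain ⟨q, rfl⟩ := hdvd
      have hq : k * q / k = q := Nat.mul_div_cancel_left _ hkpos
      rw [hq]
      have hqodd : q % 2 = 1 := by
        rcases Nat.mod_two_eq_zero_or_one q with h0 | h0
        · exfalso
          rw [Nat.mul_mod, h0] at hm
          simp at hm
        · exact h0
      have hkodd : k % 2 = 1 := by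
        rcases Nat.mod_two_eq_zero_or_one k with h0 | h0
        · exfalso
          rw [Nat.mul_mod, h0] at hm
          simp at hm
        · exact h0
      have hsign : ((-1 : ℤ)) ^ (q + 1) = 1 := Even.neg_one_pow (by
        rw [Nat.even_iff]; omega)
      rw [hsign, one_mul]
      split_ifs with hkm
      · have : q = 1 := by
          have : k * q = k * 1 := by rw [← hkm, mul_one]
          exact Nat.eq_of_mul_eq_mul_left hkpos this
        subst this
        rw [mul_one, pow_one]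
      · have hlt : k < k * q := lt_of_le_of_ne (Nat.le_mul_of_pos_right k (by omega)) hkm
        rw [ih k hlt hkodd, one_pow, mul_one]
    rw [Finset.sum_congr rfl h1, ← Finset.add_sum_erase _ _ (Nat.mem_divisors_self m hpos.ne'),
      ← Finset.add_sum_erase (m.divisors) (fun k => (k : ℤ)) (Nat.mem_divisors_self m hpos.ne'),
      if_pos rfl] at h
    have h2 : ∑ x ∈ m.divisors.erase m, (if x = m then (x : ℤ) * n m else (x : ℤ)) =
        ∑ x ∈ m.divisors.erase m, (x : ℤ) :=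
      Finset.sum_congr rfl fun x hx => if_neg (Finset.ne_of_mem_erase hx)
    rw [h2] at h
    have h3 : (m : ℤ) * n m = m * 1 := by linarith
    exact mul_left_cancel₀ (by exact_mod_cast hpos.ne') h3

/-- the halved recursion -/
lemma half_rec (hn : IsExpansion n) (M : ℕ) (hM : 0 < M) :
    ∑ e ∈ M.divisors, (2 * (e : ℤ)) * ((-1) ^ (M / e + 1) * n (2 * e) ^ (M / e)) = s M := by
  have h := rec_main hn (2 * M) (by omega)
  rw [← Finset.sum_filter_add_sum_filter_not _ (fun k => 2 ∣ k)] at h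
  have h1 : ∑ x ∈ (2 * M).divisors with 2 ∣ x, (x : ℤ) * ((-1) ^ (2 * M / x + 1) * n x ^ (2 * M / x)) =
      ∑ e ∈ M.divisors, (2 * (e : ℤ)) * ((-1) ^ (M / e + 1) * n (2 * e) ^ (M / e)) := by
    symm
    refine Finset.sum_bij (fun e _ => 2 * e) ?_ ?_ ?_ ?_
    · intro e he
      rw [Finset.mem_filter, Nat.mem_divisors]
      exact ⟨⟨Nat.mul_dvd_mul_left 2 (Nat.dvd_of_mem_divisors he), by omega⟩, dvd_mul_right _ _⟩
    · intro a _ b _ hab
      exact Nat.eq_of_mul_eq_mul_left two_pos hab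
    · intro k hk
      rw [Finset.mem_filter, Nat.mem_divisors] at hk
      obtain ⟨⟨h2, h3⟩, ⟨e, rfl⟩⟩ := hk
      exact ⟨e, Nat.mem_divisors.mpr ⟨Nat.dvd_of_mul_dvd_mul_left two_pos h2, hM.ne'⟩, rfl⟩
    · intro e _
      rw [Nat.mul_div_mul_left _ _ two_pos]
      push_cast
      ring
  have h2 : ∑ x ∈ (2 * M).divisors with ¬ 2 ∣ x,
      (x : ℤ) * ((-1) ^ (2 * M / x + 1) * n x ^ (2 * M / x)) =
      - ∑ x ∈ (2 * M).divisors with ¬ 2 ∣ x, (x : ℤ) := by
    rw [← Finset.sum_neg_distrib]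
    refine Finset.sum_congr rfl fun x hx => ?_
    rw [Finset.mem_filter, Nat.mem_divisors] at hx
    obtain ⟨⟨h3, -⟩, h4⟩ := hx
    have hx1 : x % 2 = 1 := by omega
    rw [odd_one hn x hx1, one_pow, mul_one]
    obtain ⟨q, hq⟩ := h3
    have hxpos : 0 < x := by omega
    have hq2 : 2 ∣ q := by
      have : 2 ∣ x * q := by rw [← hq]; exact dvd_mul_right _ _
      exact (Nat.prime_two.dvd_mul.mp this).resolve_left h4
    rw [hq, Nat.mul_div_cancel_left _ hxpos]
    obtain ⟨r, rfl⟩ := hq2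
    rw [pow_succ, pow_mul]
    simp
  rw [h1, h2] at h
  rw [s]
  linarith

lemma eq_tab (hn : IsExpansion n) (M : ℕ) (h1 : 1 ≤ M) (h2 : M ≤ 256) : n (2 * M) = tab M := by
  induction M using Nat.strong_induction_on with
  | _ M ih =>
    have e1 := half_rec hn M h1
    have e2 : (∑ e ∈ M.divisors, (2 * (e : ℤ)) * ((-1) ^ (M / e + 1) * tab e ^ (M / e))) = s M := by
      have := tab_rec M (Finset.mem_Icc.mpr ⟨h1, h2⟩)
      exact of_decide_eq_true this
    have hmem := Nat.mem_divisors_self M (by omega)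
    rw [← Finset.add_sum_erase _ _ hmem] at e1 e2
    have e3 : ∑ x ∈ M.divisors.erase M, (2 * (x : ℤ)) * ((-1) ^ (M / x + 1) * n (2 * x) ^ (M / x)) =
        ∑ x ∈ M.divisors.erase M, (2 * (x : ℤ)) * ((-1) ^ (M / x + 1) * tab x ^ (M / x)) := by
      refine Finset.sum_congr rfl fun x hx => ?_
      rw [Finset.mem_erase] at hx
      have hxd := Nat.dvd_of_mem_divisors hx.2
      have hxle := Nat.le_of_dvd (by omega) hxd
      have hxpos := Nat.pos_of_dvd_of_pos hxd (by omega)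
      rw [ih x (by omega) hxpos (by omega)]
    rw [e3] at e1
    have hdiv : M / M = 1 := Nat.div_self (by omega)
    rw [hdiv] at e1 e2
    have hM0 : (2 * (M : ℤ)) ≠ 0 := by positivity
    have e4 : (2 * (M : ℤ)) * n (2 * M) = (2 * (M : ℤ)) * tab M := by
      norm_num at e1 e2
      linarith
    exact mul_left_cancel₀ hM0 e4

/-! ## Splitting off the extreme divisors -/

/-- the middle divisors -/
def S3 (M : ℕ) : Finset ℕ := M.divisors.filter (fun e => 3 ≤ e ∧ 3 ≤ M / e)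

lemma div_cases {M e : ℕ} (hM : 6 < M) (he : e ∈ M.divisors) (h : ¬ (3 ≤ e ∧ 3 ≤ M / e)) :
    e = 1 ∨ e = M ∨ (2 ∣ M ∧ (e = 2 ∨ e = M / 2)) := by
  have hdvd := Nat.dvd_of_mem_divisors he
  have hepos := Nat.pos_of_dvd_of_pos hdvd (by omega)
  obtain ⟨q, rfl⟩ := hdvd
  rw [Nat.mul_div_cancel_left _ hepos] at h
  have hqpos : 0 < q := by
    rcases Nat.eq_zero_or_pos q with h0 | h0
    · subst h0; omega
    · exact h0
  rcases Nat.lt_or_ge e 3 with h1 | h1
  · interval_cases e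
    · left; rfl
    · right; right
      exact ⟨dvd_mul_right _ _, Or.inl rfl⟩
  · have hq : q < 3 := by
      by_contra hcon
      exact h ⟨h1, by omega⟩
    interval_cases q
    · right; left; rw [mul_one]
    · right; right
      exact ⟨dvd_mul_left _ _, Or.inr (by omega)⟩

lemma split_odd {M : ℕ} (hM : 6 < M) (hodd : ¬ 2 ∣ M) (f : ℕ → ℤ) :
    ∑ e ∈ M.divisors, f e = f 1 + f M + ∑ e ∈ S3 M, f e := by
  rw [← Finset.sum_filter_add_sum_filter_not M.divisors (fun e => 3 ≤ e ∧ 3 ≤ M / e) f, add_comm,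
    S3]
  congr 1
  have : (M.divisors.filter fun e => ¬ (3 ≤ e ∧ 3 ≤ M / e)) = {1, M} := by
    ext e
    rw [Finset.mem_filter, Finset.mem_insert, Finset.mem_singleton]
    constructor
    · rintro ⟨h1, h2⟩
      rcases div_cases hM h1 h2 with h | h | h
      · exact Or.inl h
      · exact Or.inr h
      · exact absurd h.1 hodd
    · rintro (rfl | rfl)
      · exact ⟨Nat.mem_divisors.mpr ⟨one_dvd _, by omega⟩, by omega⟩
      · exact ⟨Nat.mem_divisors_self _ (by omega), by rw [Nat.div_self (by omega)]; omega⟩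
  rw [this, Finset.sum_pair (by omega)]

lemma split_even {M : ℕ} (hM : 6 < M) (heven : 2 ∣ M) (f : ℕ → ℤ) :
    ∑ e ∈ M.divisors, f e = f 1 + f M + f 2 + f (M / 2) + ∑ e ∈ S3 M, f e := by
  rw [← Finset.sum_filter_add_sum_filter_not M.divisors (fun e => 3 ≤ e ∧ 3 ≤ M / e) f, add_comm,
    S3]
  congr 1
  have : (M.divisors.filter fun e => ¬ (3 ≤ e ∧ 3 ≤ M / e)) = {1, M, 2, M / 2} := by
    ext e
    simp only [Finset.mem_filter, Finset.mem_insert, Finset.mem_singleton]
    constructor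
    · rintro ⟨h1, h2⟩
      rcases div_cases hM h1 h2 with h | h | ⟨-, h | h⟩
      · exact Or.inl h
      · exact Or.inr (Or.inl h)
      · exact Or.inr (Or.inr (Or.inl h))
      · exact Or.inr (Or.inr (Or.inr h))
    · obtain ⟨r, rfl⟩ := heven
      have hr : 2 * r / 2 = r := by omega
      rw [hr]
      rintro (rfl | rfl | rfl | rfl)
      · exact ⟨Nat.mem_divisors.mpr ⟨one_dvd _, by omega⟩, by omega⟩
      · exact ⟨Nat.mem_divisors_self _ (by omega), by rw [Nat.div_self (by omega)]; omega⟩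
      · exact ⟨Nat.mem_divisors.mpr ⟨dvd_mul_right _ _, by omega⟩, by omega⟩
      · refine ⟨Nat.mem_divisors.mpr ⟨dvd_mul_left _ _, by omega⟩, ?_⟩
        rw [Nat.mul_div_cancel _ (by omega)]
        omega
  rw [this, Finset.sum_insert (by simp; omega), Finset.sum_insert (by simp; omega),
    Finset.sum_pair (by omega)]
  ring

/-! ## Estimates -/

lemma geom36 (N : ℕ) : ∑ i ∈ range N, ((i : ℝ) + 3) ^ 2 * (1 / 2) ^ i ≤ 36 := by
  have h : ∑ i ∈ range N, ((i : ℝ) + 3) ^ 2 * (1 / 2) ^ i =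
      36 - (2 * (N : ℝ) ^ 2 + 16 * N + 36) * (1 / 2) ^ N := by
    induction N with
    | zero => simp
    | succ N ih =>
      rw [Finset.sum_range_succ, ih, pow_succ]
      push_cast
      ring
  rw [h]
  have : 0 ≤ (2 * (N : ℝ) ^ 2 + 16 * N + 36) * (1 / 2) ^ N := by positivity
  linarith

lemma sum_w (M : ℕ) (K : ℝ) (hK : 0 ≤ K) :
    ∑ q ∈ M.divisors with 3 ≤ q, K * ((q : ℝ) ^ 2 * (1 / 2) ^ (q - 3)) ≤ K * 36 := by
  rw [← Finset.mul_sum]
  apply mul_le_mul_of_nonneg_left _ hK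
  calc ∑ q ∈ M.divisors with 3 ≤ q, ((q : ℝ) ^ 2 * (1 / 2) ^ (q - 3))
      ≤ ∑ q ∈ (range (M + 1)).image (fun i : ℕ => (i + 3 : ℕ)),
          ((q : ℝ) ^ 2 * (1 / 2) ^ (q - 3)) := by
        apply Finset.sum_le_sum_of_subset_of_nonneg
        · intro q hq
          rw [Finset.mem_filter] at hq
          rw [Finset.mem_image]
          have := Nat.divisor_le hq.1
          exact ⟨q - 3, Finset.mem_range.mpr (by omega), by omega⟩
        · intro q _ _
          positivity
    _ = ∑ i ∈ range (M + 1), ((i : ℝ) + 3) ^ 2 * (1 / 2) ^ i := by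
        rw [Finset.sum_image (fun a _ b _ h => Nat.add_right_cancel h)]
        refine Finset.sum_congr rfl fun i _ => ?_
        rw [Nat.add_sub_cancel]
        push_cast
        ring
    _ ≤ 36 := geom36 _

/-- the main estimate -/
lemma T3_le (N : ℕ → ℝ) (M : ℕ) (hM : 256 < M) (c : ℝ) (hc0 : 0 ≤ c) (hc : c ≤ 16)
    (hsmall : ∀ e, 3 ≤ e → e < 32 → |N e| ≤ (1943 / 1000) ^ e)
    (hlarge : ∀ e, e ∣ M → 32 ≤ e → e < M → e * |N e| ≤ c * 2 ^ e) :
    ∑ e ∈ S3 M, (e : ℝ) * |N e| ^ (M / e) ≤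
      496 * (1943 / 1000) ^ M + 36 * c ^ 3 / M ^ 2 * 2 ^ M := by
  have hMpos : (0 : ℝ) < M := by exact_mod_cast (by omega : 0 < M)
  set g : ℕ → ℝ := fun q => (c ^ 3 / M ^ 2 * 2 ^ M) * ((q : ℝ) ^ 2 * (1 / 2) ^ (q - 3)) with hg
  have hK : 0 ≤ c ^ 3 / (M : ℝ) ^ 2 * 2 ^ M := by positivity
  have hg0 : ∀ q, 0 ≤ g q := fun q => by simp only [hg]; positivity
  have hterm : ∀ e ∈ S3 M, (e : ℝ) * |N e| ^ (M / e) ≤
      (if e < 32 then (e : ℝ) * (1943 / 1000) ^ M else 0) + g (M / e) := by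
    intro e he
    rw [S3, Finset.mem_filter] at he
    obtain ⟨h1, h2, h3⟩ := he
    have hdvd := Nat.dvd_of_mem_divisors h1
    obtain ⟨q, hq⟩ := hdvd
    have hepos : 0 < e := by omega
    have hdiv : M / e = q := by rw [hq, Nat.mul_div_cancel_left _ hepos]
    rw [hdiv] at h3 ⊢
    split_ifs with h32
    · have h4 := hsmall e h2 h32
      have h5 : |N e| ^ q ≤ (1943 / 1000) ^ M := by
        rw [hq, pow_mul]
        exact pow_le_pow_left₀ (abs_nonneg _) h4 _
      have := hg0 q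
      have h6 : (e : ℝ) * |N e| ^ q ≤ e * (1943 / 1000) ^ M := by gcongr
      linarith
    · rw [zero_add]
      have he32 : 32 ≤ e := by omega
      have heR : (32 : ℝ) ≤ e := by exact_mod_cast he32
      have hlt : e < M := by rw [hq]; nlinarith
      have h4 := hlarge e ⟨q, hq⟩ he32 hlt
      have h5 : |N e| ≤ (c / e) * 2 ^ e := by
        rw [div_mul_eq_mul_div, le_div_iff₀ (by linarith)]
        linarith
      have h6 : |N e| ^ q ≤ (c / e) ^ q * 2 ^ M := by
        rw [hq, pow_mul, ← mul_pow]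
        exact pow_le_pow_left₀ (abs_nonneg _) h5 _
      obtain ⟨r, rfl⟩ : ∃ r, q = r + 3 := ⟨q - 3, by omega⟩
      have h7 : c / e ≤ 1 / 2 := by
        rw [div_le_iff₀ (by linarith)]; linarith
      have h8 : (c / (e : ℝ)) ^ r ≤ (1 / 2) ^ r := pow_le_pow_left₀ (by positivity) h7 _
      have hMe : (M : ℝ) = e * ((r : ℝ) + 3) := by rw [hq]; push_cast; ring
      simp only [hg, Nat.add_sub_cancel]
      calc (e : ℝ) * |N e| ^ (r + 3) ≤ e * ((c / e) ^ (r + 3) * 2 ^ M) := by gcongr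
        _ = (c ^ 3 / (e : ℝ) ^ 2 * 2 ^ M) * (c / e) ^ r := by
            rw [pow_add]
            field_simp
        _ ≤ (c ^ 3 / (e : ℝ) ^ 2 * 2 ^ M) * (1 / 2) ^ r := by gcongr
        _ = (c ^ 3 / (M : ℝ) ^ 2 * 2 ^ M) * (((r + 3 : ℕ) : ℝ) ^ 2 * (1 / 2) ^ r) := by
            rw [hMe]
            push_cast
            field_simp
  refine (Finset.sum_le_sum hterm).trans ?_
  rw [Finset.sum_add_distrib]
  have p1 : ∑ e ∈ S3 M, (if e < 32 then (e : ℝ) * (1943 / 1000) ^ M else 0) ≤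
      496 * (1943 / 1000) ^ M := by
    rw [← Finset.sum_filter]
    calc ∑ e ∈ (S3 M).filter (fun e => e < 32), (e : ℝ) * (1943 / 1000) ^ M
        ≤ ∑ e ∈ range 32, (e : ℝ) * (1943 / 1000) ^ M := by
          apply Finset.sum_le_sum_of_subset_of_nonneg
          · intro e he
            rw [Finset.mem_filter] at he
            exact Finset.mem_range.mpr he.2
          · intro e _ _; positivity
      _ = 496 * (1943 / 1000) ^ M := by
          rw [← Finset.sum_mul]
          congr 1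
          simp [Finset.sum_range_succ]
          norm_num
  have p2 : ∑ e ∈ S3 M, g (M / e) ≤ 36 * c ^ 3 / M ^ 2 * 2 ^ M := by
    calc ∑ e ∈ S3 M, g (M / e) ≤ ∑ e ∈ M.divisors, (if 3 ≤ M / e then g (M / e) else 0) := by
          rw [S3, Finset.sum_filter]
          apply Finset.sum_le_sum
          intro e _
          by_cases h : 3 ≤ M / e
          · rw [if_pos h]
            split_ifs
            · exact le_rfl
            · exact hg0 _
          · rw [if_neg (fun hh => h hh.2), if_neg h]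
      _ = ∑ q ∈ M.divisors, (if 3 ≤ q then g q else 0) :=
          Nat.sum_div_divisors M (fun q => if 3 ≤ q then g q else 0)
      _ = ∑ q ∈ M.divisors with 3 ≤ q, g q := (Finset.sum_filter _ _).symm
      _ ≤ (c ^ 3 / M ^ 2 * 2 ^ M) * 36 := sum_w M _ hK
      _ = 36 * c ^ 3 / M ^ 2 * 2 ^ M := by ring
  linarith

/-! ## The induction -/

/-- the three properties propagated by the induction -/
def Prop3 (n : ℕ → ℤ) (M : ℕ) : Prop :=
  (5 ≤ M → M % 4 ≠ 0 → -(2 * 2 ^ M) ≤ (M : ℤ) * n (2 * M) ∧ n (2 * M) < 0) ∧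
  (4 ≤ M → M % 4 = 0 → 2 * (M : ℤ) * n (2 * M) ≤ 27 * 2 ^ M ∧ 0 < n (2 * M)) ∧
  (3 ≤ M → M < 32 → |n (2 * M)| * 1000 ^ M ≤ 1943 ^ M)

lemma prop3_small (hn : IsExpansion n) (M : ℕ) (h1 : 1 ≤ M) (h2 : M ≤ 256) : Prop3 n M := by
  have e := eq_tab hn M h1 h2
  refine ⟨fun h3 h4 => ?_, fun h3 h4 => ?_, fun h3 h4 => ?_⟩
  · have := tab_A M (Finset.mem_Icc.mpr ⟨h3, h2⟩)
    rw [e]
    exact (of_decide_eq_true this).resolve_left h4
  · have := tab_B M (Finset.mem_Icc.mpr ⟨h3, h2⟩)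
    rw [e]
    exact (of_decide_eq_true this).resolve_left (fun h => h h4)
  · have := tab_C M (Finset.mem_Icc.mpr ⟨h3, by omega⟩)
    rw [e]
    exact of_decide_eq_true this

set_option exponentiation.threshold 1000 in
lemma sq_small (M : ℕ) (hM : 257 ≤ M) : 1600 * (M : ℝ) ^ 2 ≤ 2 ^ M := by
  have : 1600 * M ^ 2 ≤ 2 ^ M := by
    induction M, hM using Nat.le_induction with
    | base => norm_num
    | succ M hM ih =>
      rw [pow_succ 2 M]
      nlinarith
  exact_mod_cast this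

set_option exponentiation.threshold 1000 in
lemma mu_small (M : ℕ) (hM : 257 ≤ M) : 496 * (1943 / 1000 : ℝ) ^ M ≤ (3 / 10) * 2 ^ M := by
  obtain ⟨k, rfl⟩ : ∃ k, M = 257 + k := ⟨M - 257, by omega⟩
  rw [pow_add, pow_add]
  have h1 : (1943 / 1000 : ℝ) ^ k ≤ 2 ^ k := pow_le_pow_left₀ (by norm_num) (by norm_num) _
  have h2 : 496 * (1943 / 1000 : ℝ) ^ 257 ≤ (3 / 10) * 2 ^ 257 := by norm_num
  have h3 : (0 : ℝ) < 2 ^ k := by positivity
  have h4 : (0 : ℝ) < (1943 / 1000) ^ 257 := by positivity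
  calc 496 * ((1943 / 1000 : ℝ) ^ 257 * (1943 / 1000) ^ k)
      ≤ 496 * ((1943 / 1000 : ℝ) ^ 257 * 2 ^ k) := by gcongr
    _ = (496 * (1943 / 1000 : ℝ) ^ 257) * 2 ^ k := by ring
    _ ≤ ((3 / 10) * 2 ^ 257) * 2 ^ k := by gcongr
    _ = (3 / 10) * (2 ^ 257 * 2 ^ k) := by ring

lemma s_nonneg (M : ℕ) : 0 ≤ s M := by
  unfold s
  positivity

lemma s_le (M : ℕ) : (s M : ℝ) ≤ 16 * (M : ℝ) ^ 2 := by
  have h1 : s M ≤ 2 * ∑ k ∈ (2 * M).divisors, (k : ℤ) := by
    rw [s, two_mul (∑ k ∈ (2 * M).divisors, (k : ℤ))]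
    refine add_le_add le_rfl ?_
    apply Finset.sum_le_sum_of_subset_of_nonneg (Finset.filter_subset _ _)
    intro k _ _
    positivity
  have h2 : ∑ k ∈ (2 * M).divisors, (k : ℤ) ≤ ∑ k ∈ (2 * M).divisors, ((2 * M : ℕ) : ℤ) := by
    apply Finset.sum_le_sum
    intro k hk
    exact_mod_cast Nat.divisor_le hk
  have h3 : ((2 * M).divisors.card : ℤ) ≤ 2 * M + 0 := by
    have : (2 * M).divisors.card ≤ 2 * M := Nat.card_divisors_le_self _
    exact_mod_cast this
  rw [Finset.sum_const, nsmul_eq_mul] at h2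
  have h4 : s M ≤ 2 * ((2 * M) * (2 * M)) := by
    have : ((2 * M).divisors.card : ℤ) * ((2 * M : ℕ) : ℤ) ≤ (2 * M) * (2 * M) := by
      push_cast
      have hM : (0 : ℤ) ≤ 2 * M := by positivity
      nlinarith
    linarith
  have h5 : (s M : ℝ) ≤ 2 * ((2 * M) * (2 * M)) := by exact_mod_cast h4
  nlinarith [sq_nonneg (M : ℝ)]

lemma prop3_large (hn : IsExpansion n) (M : ℕ) (hM : 257 ≤ M)
    (ih : ∀ e < M, 1 ≤ e → Prop3 n e) : Prop3 n M := by
  have hMpos : (0 : ℝ) < M := by exact_mod_cast (by omega : 0 < M)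
  have hM257 : (257 : ℝ) ≤ M := by exact_mod_cast hM
  have h2M : (0 : ℝ) < 2 ^ M := by positivity
  set N : ℕ → ℝ := fun e => (n (2 * e) : ℝ) with hN
  have hrec := half_rec hn M (by omega)
  have hs0 : (0 : ℝ) ≤ s M := by exact_mod_cast s_nonneg M
  have hs1 : (s M : ℝ) ≤ (1 / 100) * 2 ^ M := by
    have h1 := s_le M
    have h2 := sq_small M hM
    linarith
  have hsmall : ∀ e, 3 ≤ e → e < 32 → |N e| ≤ (1943 / 1000) ^ e := by
    intro e h1 h2
    have h3 := (ih e (by omega) (by omega)).2.2 h1 h2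
    have h4 : |N e| * 1000 ^ e ≤ 1943 ^ e := by
      simp only [hN]
      exact_mod_cast h3
    rw [div_pow, le_div_iff₀ (by positivity)]
    exact h4
  -- bounds for earlier terms
  have habsA : ∀ e, 5 ≤ e → e < M → e % 4 ≠ 0 → (e : ℝ) * |N e| ≤ 2 * 2 ^ e := by
    intro e h1 h2 h3
    obtain ⟨h4, h5⟩ := (ih e h2 (by omega)).1 h1 h3
    have h6 : |N e| = - N e := abs_of_neg (by simp only [hN]; exact_mod_cast h5)
    have h7 : -(2 * 2 ^ e) ≤ (e : ℝ) * N e := by simp only [hN]; exact_mod_cast h4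
    rw [h6]; linarith
  have habsB : ∀ e, 5 ≤ e → e < M → (e : ℝ) * |N e| ≤ (27 / 2) * 2 ^ e := by
    intro e h1 h2
    by_cases h3 : e % 4 = 0
    · obtain ⟨h4, h5⟩ := (ih e h2 (by omega)).2.1 (by omega) h3
      have h6 : |N e| = N e := abs_of_pos (by simp only [hN]; exact_mod_cast h5)
      have h7 : 2 * (e : ℝ) * N e ≤ 27 * 2 ^ e := by simp only [hN]; exact_mod_cast h4
      rw [h6]; linarith
    · have h4 := habsA e h1 h2 h3
      have h5 : (0 : ℝ) < 2 ^ e := by positivity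
      linarith
  have hmu := mu_small M hM
  -- the middle sum
  set T : ℝ := ∑ e ∈ S3 M, (e : ℝ) * |N e| ^ (M / e) with hT
  have hmid : |((∑ e ∈ S3 M, (2 * (e : ℤ)) * ((-1) ^ (M / e + 1) * n (2 * e) ^ (M / e)) : ℤ) : ℝ)| ≤
      2 * T := by
    push_cast
    refine (Finset.abs_sum_le_sum_abs _ _).trans ?_
    rw [hT, Finset.mul_sum]
    apply Finset.sum_le_sum
    intro e _
    rw [abs_mul, abs_mul ((-1 : ℝ) ^ (M / e + 1)), abs_pow, abs_neg, abs_one, one_pow, one_mul,
      abs_pow, abs_of_nonneg (by positivity : (0 : ℝ) ≤ 2 * e)]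
    simp only [hN]
    linarith
  set mid : ℤ := ∑ e ∈ S3 M, (2 * (e : ℤ)) * ((-1) ^ (M / e + 1) * n (2 * e) ^ (M / e)) with hmiddef
  have hn2 : n (2 * 1) = 2 := by
    rw [eq_tab hn 1 le_rfl (by norm_num), tab_1]
  have hn4 : n (2 * 2) = 4 := by
    rw [eq_tab hn 2 (by norm_num) (by norm_num), tab_2]
  have hMM : M / M = 1 := Nat.div_self (by omega)
  -- class A
  have hA : M % 4 ≠ 0 → -(2 * 2 ^ M) ≤ (M : ℝ) * N M ∧ (M : ℝ) * N M < 0 := by
    intro h4
    have hTA : T ≤ (305 / 1000) * 2 ^ M := by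
      have h1 := T3_le N M (by omega) 2 (by norm_num) (by norm_num) hsmall (fun e he h32 hlt => by
        apply habsA e (by omega) hlt
        intro h0
        apply h4
        have : 4 ∣ M := (Nat.dvd_of_mod_eq_zero h0).trans he
        exact Nat.mod_eq_zero_of_dvd this)
      have h2 : 36 * (2 : ℝ) ^ 3 / M ^ 2 ≤ 5 / 1000 := by
        rw [div_le_iff₀ (by positivity)]
        nlinarith
      have h3 : 36 * (2 : ℝ) ^ 3 / M ^ 2 * 2 ^ M ≤ 5 / 1000 * 2 ^ M := by gcongr
      rw [← hT] at h1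
      linarith
    have hm1 := (abs_le.mp hmid).1
    have hm2 := (abs_le.mp hmid).2
    rcases Nat.mod_two_eq_zero_or_one M with hpar | hpar
    · -- `M ≡ 2 mod 4`
      have h2dvd : 2 ∣ M := Nat.dvd_of_mod_eq_zero hpar
      rw [split_even (by omega) h2dvd, ← hmiddef] at hrec
      obtain ⟨r, hr⟩ := h2dvd
      have hrodd : r % 2 = 1 := by omega
      have hr2 : M / 2 = r := by omega
      have hMr : M / r = 2 := by rw [hr]; exact Nat.mul_div_cancel _ (by omega)
      rw [hMM, hr2, hMr, Nat.div_one, hn2, hn4] at hrec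
      have s1 : ((-1 : ℤ)) ^ (M + 1) = -1 := Odd.neg_one_pow (by rw [Nat.odd_iff]; omega)
      have s2 : ((-1 : ℤ)) ^ (r + 1) = 1 := Even.neg_one_pow (by rw [Nat.even_iff]; omega)
      have s3 : (4 : ℤ) ^ r = 2 ^ M := by rw [hr, pow_mul]; norm_num
      rw [s1, s2, s3] at hrec
      have hrecR : 2 * (M : ℝ) * N M = s M - 2 * 2 ^ M + M * N r ^ 2 - mid := by
        have h1 : (2 * (M : ℤ)) * n (2 * M) = s M - 2 * 2 ^ M + M * n (2 * r) ^ 2 - mid := by
          have h2 : (M : ℤ) = 2 * r := by exact_mod_cast hr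
          norm_num at hrec
          rw [h2] at hrec ⊢
          linarith
        simp only [hN]
        exact_mod_cast h1
      have hsq : (M : ℝ) * N r ^ 2 ≤ (63 / 1000) * 2 ^ M := by
        have h1 := habsA r (by omega) (by omega) (by omega)
        have hrR : (M : ℝ) = 2 * r := by exact_mod_cast hr
        have h2 : ((r : ℝ) * |N r|) ^ 2 ≤ (2 * 2 ^ r) ^ 2 := pow_le_pow_left₀ (by positivity) h1 2
        rw [mul_pow, sq_abs, mul_pow] at h2
        have h3 : ((2 : ℝ) ^ r) ^ 2 = 2 ^ M := by rw [← pow_mul, hr, mul_comm]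
        rw [h3] at h2
        have h4 : (M : ℝ) * ((M : ℝ) * N r ^ 2) ≤ M * ((63 / 1000) * 2 ^ M) := by
          have e1 : (M : ℝ) * ((M : ℝ) * N r ^ 2) = 4 * ((r : ℝ) ^ 2 * N r ^ 2) := by
            rw [hrR]; ring
          rw [e1]
          nlinarith
        exact le_of_mul_le_mul_left h4 hMpos
      have hsq0 : 0 ≤ (M : ℝ) * N r ^ 2 := by positivity
      constructor <;> linarith
    · have hodd : ¬ 2 ∣ M := by omega
      rw [split_odd (by omega) hodd, ← hmiddef, hMM, Nat.div_one, hn2] at hrec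
      have s1 : ((-1 : ℤ)) ^ (M + 1) = 1 := Even.neg_one_pow (by rw [Nat.even_iff]; omega)
      rw [s1] at hrec
      have hrecR : 2 * (M : ℝ) * N M = s M - 2 * 2 ^ M - mid := by
        have h1 : (2 * (M : ℤ)) * n (2 * M) = s M - 2 * 2 ^ M - mid := by
          norm_num at hrec
          linarith
        simp only [hN]
        exact_mod_cast h1
      constructor <;> linarith
  have hB : M % 4 = 0 → 2 * (M : ℝ) * N M ≤ 27 * 2 ^ M ∧ 0 < (M : ℝ) * N M := by
    intro h4
    have hTB : T ≤ (17 / 10) * 2 ^ M := by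
      have h1 := T3_le N M (by omega) (27 / 2) (by norm_num) (by norm_num) hsmall
        (fun e he h32 hlt => habsB e (by omega) hlt)
      have h2 : 36 * (27 / 2 : ℝ) ^ 3 / M ^ 2 ≤ 14 / 10 := by
        rw [div_le_iff₀ (by positivity)]
        nlinarith
      have h3 : 36 * (27 / 2 : ℝ) ^ 3 / M ^ 2 * 2 ^ M ≤ 14 / 10 * 2 ^ M := by gcongr
      rw [← hT] at h1
      linarith
    have hm1 := (abs_le.mp hmid).1
    have hm2 := (abs_le.mp hmid).2
    have h2dvd : 2 ∣ M := by omega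
    rw [split_even (by omega) h2dvd, ← hmiddef] at hrec
    obtain ⟨r, hr⟩ := h2dvd
    have hreven : r % 2 = 0 := by omega
    have hr2 : M / 2 = r := by omega
    have hMr : M / r = 2 := by rw [hr]; exact Nat.mul_div_cancel _ (by omega)
    rw [hMM, hr2, hMr, Nat.div_one, hn2, hn4] at hrec
    have s1 : ((-1 : ℤ)) ^ (M + 1) = -1 := Odd.neg_one_pow (by rw [Nat.odd_iff]; omega)
    have s2 : ((-1 : ℤ)) ^ (r + 1) = -1 := Odd.neg_one_pow (by rw [Nat.odd_iff]; omega)
    have s3 : (4 : ℤ) ^ r = 2 ^ M := by rw [hr, pow_mul]; norm_num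
    rw [s1, s2, s3] at hrec
    have hrecR : 2 * (M : ℝ) * N M = s M + 6 * 2 ^ M + M * N r ^ 2 - mid := by
      have h1 : (2 * (M : ℤ)) * n (2 * M) = s M + 6 * 2 ^ M + M * n (2 * r) ^ 2 - mid := by
        have h2 : (M : ℤ) = 2 * r := by exact_mod_cast hr
        norm_num at hrec
        rw [h2] at hrec ⊢
        linarith
      simp only [hN]
      exact_mod_cast h1
    have hsq : (M : ℝ) * N r ^ 2 ≤ 3 * 2 ^ M := by
      have h1 := habsB r (by omega) (by omega)
      have hrR : (M : ℝ) = 2 * r := by exact_mod_cast hr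
      have h2 : ((r : ℝ) * |N r|) ^ 2 ≤ (27 / 2 * 2 ^ r) ^ 2 :=
        pow_le_pow_left₀ (by positivity) h1 2
      rw [mul_pow, sq_abs, mul_pow] at h2
      have h3 : ((2 : ℝ) ^ r) ^ 2 = 2 ^ M := by rw [← pow_mul, hr, mul_comm]
      rw [h3] at h2
      have h4 : (M : ℝ) * ((M : ℝ) * N r ^ 2) ≤ M * (3 * 2 ^ M) := by
        have e1 : (M : ℝ) * ((M : ℝ) * N r ^ 2) = 4 * ((r : ℝ) ^ 2 * N r ^ 2) := by
          rw [hrR]; ring
        rw [e1]
        nlinarith
      exact le_of_mul_le_mul_left h4 hMpos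
    have hsq0 : 0 ≤ (M : ℝ) * N r ^ 2 := by positivity
    constructor <;> linarith
  refine ⟨fun _ h4 => ?_, fun _ h4 => ?_, fun h3 h4 => by omega⟩
  · obtain ⟨h1, h2⟩ := hA h4
    have h3 : N M < 0 := by
      by_contra hcon
      push Not at hcon
      have : 0 ≤ (M : ℝ) * N M := by positivity
      linarith
    constructor
    · simp only [hN] at h1; exact_mod_cast h1
    · simp only [hN] at h3; exact_mod_cast h3
  · obtain ⟨h1, h2⟩ := hB h4
    have h3 : 0 < N M := by
      by_contra hcon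
      push Not at hcon
      have : (M : ℝ) * N M ≤ 0 := mul_nonpos_of_nonneg_of_nonpos hMpos.le hcon
      linarith
    constructor
    · simp only [hN] at h1; exact_mod_cast h1
    · simp only [hN] at h3; exact_mod_cast h3

theorem prop3 (hn : IsExpansion n) (M : ℕ) (hM : 1 ≤ M) : Prop3 n M := by
  induction M using Nat.strong_induction_on with
  | _ M ih =>
    rcases Nat.lt_or_ge 256 M with h | h
    · exact prop3_large hn M h (fun e he h1 => ih e he h1)
    · exact prop3_small hn M hM h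

end Q263.PP
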